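import Mathlib

set_option autoImplicit false

namespace Pool.Agent.Results.MP_3e19fa_lc.Cycle

def util {V : Type} {n k : ℕ} (G : SimpleGraph V) [DecidableRel G.Adj] (ty : Fin n → Fin k)
    (σ : Fin n → V) (i : Fin n) : ℕ :=
  ((Finset.univ.filter fun j => G.Adj (σ i) (σ j) ∧ ty j ≠ ty i).image ty).card

def Jump {V : Type} {n k : ℕ} (G : SimpleGraph V) [DecidableRel G.Adj] (ty : Fin n → Fin k)
    (σ τ : Fin n → V) : Prop :=
  ∃ (i : Fin n) (w : V), (∀ j, σ j ≠ w) ∧ τ = Function.update σ i w ∧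
    util G ty σ i < util G ty τ i

def ed : List (Fin 8 × Fin 8) := [(0, 1), (0, 3), (0, 4), (1, 2), (1, 4), (1, 7), (2, 5), (2, 7), (3, 6), (3, 7), (4, 5), (4, 6), (5, 6), (6, 7)]

def G8 : SimpleGraph (Fin 8) where
  Adj a b := (a, b) ∈ ed ∨ (b, a) ∈ ed
  symm := ⟨fun _ _ h => h.symm⟩
  loopless := ⟨by decide⟩

instance : DecidableRel G8.Adj := fun a b => inferInstanceAs (Decidable ((a, b) ∈ ed ∨ (b, a) ∈ ed))

def ty6 : Fin 6 → Fin 3 := ![0, 0, 1, 1, 2, 2]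

theorem step (σ τ : Fin 6 → Fin 8) (i : Fin 6) (w : Fin 8)
    (h : (∀ j, σ j ≠ w) ∧ τ = Function.update σ i w ∧ util G8 ty6 σ i < util G8 ty6 τ i) :
    Relation.TransGen (Jump G8 ty6) σ τ := .single ⟨i, w, h⟩

theorem cyc : Relation.TransGen (Jump G8 ty6) ![4, 5, 0, 1, 2, 6] ![4, 5, 0, 1, 2, 6] := by
  refine (step _ ![4, 3, 0, 1, 2, 6] 1 3 (by decide +kernel)).trans ?_
  refine (step _ ![4, 3, 0, 1, 2, 7] 5 7 (by decide +kernel)).trans ?_
  refine (step _ ![4, 3, 5, 1, 2, 7] 2 5 (by decide +kernel)).trans ?_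
  refine (step _ ![6, 3, 5, 1, 2, 7] 0 6 (by decide +kernel)).trans ?_
  refine (step _ ![6, 3, 5, 1, 0, 7] 4 0 (by decide +kernel)).trans ?_
  refine (step _ ![6, 3, 5, 4, 0, 7] 3 4 (by decide +kernel)).trans ?_
  refine (step _ ![6, 2, 5, 4, 0, 7] 1 2 (by decide +kernel)).trans ?_
  refine (step _ ![6, 2, 5, 4, 0, 1] 5 1 (by decide +kernel)).trans ?_
  refine (step _ ![6, 2, 3, 4, 0, 1] 2 3 (by decide +kernel)).trans ?_
  refine (step _ ![7, 2, 3, 4, 0, 1] 0 7 (by decide +kernel)).trans ?_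
  refine (step _ ![7, 2, 3, 4, 5, 1] 4 5 (by decide +kernel)).trans ?_
  refine (step _ ![7, 2, 3, 6, 5, 1] 3 6 (by decide +kernel)).trans ?_
  refine (step _ ![7, 0, 3, 6, 5, 1] 1 0 (by decide +kernel)).trans ?_
  refine (step _ ![7, 0, 3, 6, 5, 4] 5 4 (by decide +kernel)).trans ?_
  refine (step _ ![7, 0, 2, 6, 5, 4] 2 2 (by decide +kernel)).trans ?_
  refine (step _ ![1, 0, 2, 6, 5, 4] 0 1 (by decide +kernel)).trans ?_
  refine (step _ ![1, 0, 2, 6, 3, 4] 4 3 (by decide +kernel)).trans ?_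
  refine (step _ ![1, 0, 2, 7, 3, 4] 3 7 (by decide +kernel)).trans ?_
  refine (step _ ![1, 5, 2, 7, 3, 4] 1 5 (by decide +kernel)).trans ?_
  refine (step _ ![1, 5, 2, 7, 3, 6] 5 6 (by decide +kernel)).trans ?_
  refine (step _ ![1, 5, 0, 7, 3, 6] 2 0 (by decide +kernel)).trans ?_
  refine (step _ ![4, 5, 0, 7, 3, 6] 0 4 (by decide +kernel)).trans ?_
  refine (step _ ![4, 5, 0, 7, 2, 6] 4 2 (by decide +kernel)).trans ?_
  exact step _ _ 3 1 (by decide +kernel)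

theorem result :
    ¬ ∀ (V : Type) [Fintype V] (G : SimpleGraph V) [DecidableRel G.Adj] (n k : ℕ)
      (ty : Fin n → Fin k), G.Connected → 2 ≤ k → Function.Surjective ty →
      Fintype.card V = n + 2 →
      ¬ ∃ σ : Fin n → V, Function.Injective σ ∧ Relation.TransGen (Jump G ty) σ σ := by
  intro h
  exact h (Fin 8) G8 6 3 ty6 (by decide +kernel) (by norm_num) (by decide) (by simp)
    ⟨_, by decide, cyc⟩

end Pool.Agent.Results.MP_3e19fa_lc.Cycle
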